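import Pool.Agent.R376.AP.T
import Pool.Agent.R376.AP.A
import Pool.Agent.R376.AP.B
import Pool.Agent.R376.AP.D
import Pool.Agent.R376.AP.S
import Pool.Agent.R376.AP.P
import Pool.Agent.R376.AP.Cap
import Pool.Agent.R376.AP.Curv
import Pool.Agent.R376.AP.Inv
import Pool.Agent.R376.AP.Pole
import Pool.Agent.R376.AP.Edge
import Pool.Agent.R376.AP.Card
import Pool.Agent.R376.AP.Fin

/-!
# The curvatures of the Apollonian sphere packing of the 24-cell are exactly `0, 1, 2, 3, …`

Full affirmative answer to Q1. All definitions (stereographic projection, caps, the edge-scribed 24-cell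
in the 1-CBP position, the dilated packing `𝓑`, the dual packing `𝓑*`, inversions, the Apollonian group,
the packing `Ω(𝓑)`, curvature) are in `Pool/Agent/R376/AP/Defs.lean`.

Proof idea. In Lorentz coordinates the members of `Ω(𝓑)` are integer vectors `(X, t) ∈ D₄ × ℤ` with
`2|X|² - 3t² = 1`; the curvature is the integer `3t - (2X₁ + X₂ + X₃)`, and it is `≥ 0` since
`(X·q)² ≤ 6|X|²`. The stabiliser of a member is the reflection group of the regular ideal cube, and a
descent shows that the balls tangent to a given member correspond to all coprime pairs of Eisenstein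
integers. The balls of even curvature `n` tangent to a ball of curvature `1` are given by the coprime
solutions of `|γ|² + 2|β|² = n + 1`, a Hermitian form of class number one. The balls of odd curvature `n`
tangent to a ball of curvature `2` are given by the coprime solutions of `|γ|² + 2|β|² = n + 2` with `β`
odd (a form in a genus of two classes); they are obtained from any coprime solution by right
multiplication with a quaternion of norm 7.
-/

set_option autoImplicit false

namespace Pool.Agent.Results.MP_ab5bd9_nt.AllNaturals

open Pool.Agent.R376.AP

/-- **Q1 is true.** Edge-scribed regular 24-cells with an edge whose midpoint lies on the ray towards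
the north pole exist. For each of them (with vertex set `V`): there are 24 vertices and 24 facet poles;
there is an inversion in every member of the dual packing; every member of the Apollonian packing
`Ω(𝓑)` is a ball, a half-space or the closure of the complement of a ball and has exactly one
curvature; and the set of the curvatures is the set of the natural numbers `0, 1, 2, …`. -/
theorem result :
    (∃ V : Set E4, IsEdgeScribed24Cell V ∧ HasEdgeTowardsNorth V) ∧
    ∀ V : Set E4, IsEdgeScribed24Cell V → HasEdgeTowardsNorth V →
      V.ncard = 24 ∧ {f | IsFacetPole V f}.ncard = 24 ∧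
      (∀ f, IsFacetPole V f → ∃ g : Equiv.Perm Hat, IsInversionIn (member f) g) ∧
      (∀ B ∈ packing V, ∃! k : ℝ, HasCurvature B k) ∧
      {k : ℝ | ∃ B ∈ packing V, HasCurvature B k} = Set.range (fun n : ℕ => (n : ℝ)) := by
  have hA : StmA := stmA stmT
  have hS : StmS := stmS hA (stmB hA) stmD
  refine ⟨stmEx, fun V hV hE => ⟨(card24 stmPole V hV).1, (card24 stmPole V hV).2, ?_,
    fin stmP hS stmCap stmCurv stmInv stmPole stmEdge V hV hE⟩⟩
  intro f hf
  obtain ⟨U, rfl⟩ := hV
  obtain ⟨w, hw, rfl⟩ := (stmPole U f).1 hf
  rw [FF.member_pole stmCap U w hw]
  exact (stmInv _ _ _ (FF.norm_GW _ _ (FF.norm_Wd U w hw))).1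

end Pool.Agent.Results.MP_ab5bd9_nt.AllNaturals
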